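import Pool.Agent.TH980.IM.Loc

/-!
# Local structure of the absolutely continuous spectrum of the Anderson model

`Δ_ω = -Δ + ω` on `ℓ²(ℤ^d)`, `ω_j` iid with any law of bounded support which is not a point mass,
for instance `P(ω_j = ±1) = 1/2`. There is a Borel set `S` such that almost surely the spectral
measures of all vectors are singular outside `S`, and, simultaneously for all finitely supported
vectors `u` (also those which depend on `ω`):
* for almost every real `E` the limit of `Im ⟨u, (Δ_ω - E - iη)⁻¹ u⟩` for `η → 0+` exists, and it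
  is zero if and only if `E ∉ S` or `u = (Δ_ω - E) v` for a finitely supported `v`;
* if `u ≠ 0` then the spectral measure of `u` is not singular on any Borel set which meets `S` in
  positive measure;
* the matrix of spectral measures of the sites of a finite subset of two adjacent hyperplanes
  dominates `c(E) dE` times the identity, with `c > 0` almost everywhere on `S`. (So, for `d ≥ 2`,
  the absolutely continuous spectrum has infinite multiplicity, uniformly on `S`.)
-/

set_option autoImplicit false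

open MeasureTheory Filter Topology
open scoped ENNReal

namespace Pool.Agent.Results.MP_d0f69c_mp.FiniteSupport

/-- The Hilbert space `ℓ²(ℤ^d)`. -/
def L2 (d : ℕ) : Type := lp (fun _ : Fin d → ℤ => ℂ) 2

/-- The `ℓ²` norm. -/
noncomputable instance instNorm (d : ℕ) : NormedAddCommGroup (L2 d) :=
  @lp.normedAddCommGroup (Fin d → ℤ) (fun _ => ℂ) 2 _ _

/-- The `ℓ²` inner product. -/
noncomputable instance instInner (d : ℕ) : InnerProductSpace ℂ (L2 d) :=
  @lp.instInnerProductSpace (Fin d → ℤ) ℂ _ (fun _ => ℂ) _ _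

/-- The underlying function of a vector of `ℓ²(ℤ^d)`. -/
def coord {d : ℕ} (u : L2 d) : (Fin d → ℤ) → ℂ := (show lp (fun _ : Fin d → ℤ => ℂ) 2 from u)

/-- Bounded linear operators on a complex inner product space. -/
abbrev Op (E : Type) [NormedAddCommGroup E] [InnerProductSpace ℂ E] : Type := E →L[ℂ] E

/-- the operator of the problem, `(Δ_ω u)(j) = -∑_{|n|=1} (u(j+n) - u(j)) + ω_j u(j)` (the unit
vectors `n` are `± e_i`) -/
noncomputable def act {d : ℕ} (ω : (Fin d → ℤ) → ℝ) (u : (Fin d → ℤ) → ℂ) (j : Fin d → ℤ) : ℂ :=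
  -(∑ i : Fin d, ((u (j + Pi.single i 1) - u j) + (u (j - Pi.single i 1) - u j))) + (ω j : ℂ) * u j

/-- The bounded operator `H` on `ℓ²(ℤ^d)` is `Δ_ω`. -/
def IsAnderson {d : ℕ} (ω : (Fin d → ℤ) → ℝ) (H : Op (L2 d)) : Prop :=
  ∀ u : L2 d, coord (H u) = act ω (coord u)

/-- `(H - z)⁻¹` -/
noncomputable def res {E : Type} [NormedAddCommGroup E] [InnerProductSpace ℂ E] (H : Op E) (z : ℂ) :
    Op E :=
  Ring.inverse (H - z • (1 : Op E))

/-- `μ` is the spectral measure of `ψ`: a finite measure with Borel transform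
`⟨ψ, (H - z)⁻¹ ψ⟩` off the real line. -/
def IsSpectralMeasure {E : Type} [NormedAddCommGroup E] [InnerProductSpace ℂ E]
    (H : Op E) (ψ : E) (μ : Measure ℝ) : Prop :=
  IsFiniteMeasure μ ∧ ∀ z : ℂ, z.im ≠ 0 →
    ∫ x, ((x : ℂ) - z)⁻¹ ∂μ = inner ℂ ψ (res H z ψ)

/-- the law of iid variables with law `ν` on `ℤ^d` -/
noncomputable def iid (d : ℕ) (ν : Measure ℝ) : Measure ((Fin d → ℤ) → ℝ) :=
  Measure.infinitePi fun _ => ν

/-- `u` has finite support -/
def FinSupp {d : ℕ} (u : L2 d) : Prop := {j | coord u j ≠ 0}.Finite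

/-- every vector has a spectral measure, and the spectral measures of all vectors are singular on
`B` if `B ∩ S` is Lebesgue null -/
def SingularOff {d : ℕ} (H : Op (L2 d)) (S : Set ℝ) : Prop :=
  (∀ φ : L2 d, ∃ μ : Measure ℝ, IsSpectralMeasure H φ μ) ∧
  ∀ B : Set ℝ, MeasurableSet B → volume (B ∩ S) = 0 → ∀ (φ : L2 d) (μ : Measure ℝ),
    IsSpectralMeasure H φ μ → (μ.restrict B) ⟂ₘ volume

/-- for almost every `E`, for all finitely supported `u`: the limit `l` of
`Im ⟨u, (H - E - iη)⁻¹ u⟩` for `η → 0+` exists, and `l = 0` if and only if `E ∉ S` or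
`u = (H - E) v` for a finitely supported `v` -/
def LocalForm {d : ℕ} (H : Op (L2 d)) (S : Set ℝ) : Prop :=
  ∀ᵐ E : ℝ, ∀ u : L2 d, FinSupp u → ∃ l : ℝ,
    Tendsto (fun η : ℝ => (inner ℂ u (res H (E + η * Complex.I) u)).im) (𝓝[>] 0) (𝓝 l) ∧
    (l = 0 ↔ (E ∉ S ∨ ∃ v : L2 d, FinSupp v ∧ u = H v - (E : ℂ) • v))

/-- the spectral measure of `u` is not singular on the Borel set `B` if `B ∩ S` is not Lebesgue
null -/
def SeesAll {d : ℕ} (H : Op (L2 d)) (S : Set ℝ) (u : L2 d) : Prop :=
  ∀ B : Set ℝ, MeasurableSet B → volume (B ∩ S) ≠ 0 → ∀ μ : Measure ℝ,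
    IsSpectralMeasure H u μ → ¬ (μ.restrict B) ⟂ₘ volume

/-- there is a Borel function `c`, nonzero almost everywhere on `S`, such that the spectral measure
of every vector `φ` supported in `F` is at least `‖φ‖² c(E) dE` -/
def Dominates {d : ℕ} (H : Op (L2 d)) (S : Set ℝ) (F : Finset (Fin d → ℤ)) : Prop :=
  ∃ c : ℝ → ℝ≥0∞, Measurable c ∧ (∀ᵐ E : ℝ, E ∈ S → c E ≠ 0) ∧
    ∀ φ : L2 d, (∀ j, j ∉ F → coord φ j = 0) → ∀ μ : Measure ℝ, IsSpectralMeasure H φ μ →
      ∀ B : Set ℝ, MeasurableSet B → ENNReal.ofReal (‖φ‖ ^ 2) * ∫⁻ E in B, c E ≤ μ B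

/-- Let `d ≥ 1` and let `ν` be a law with bounded support which is not a point mass. There is a
Borel set `S` such that for almost every iid potential `ω` with law `ν` there is exactly one bounded
operator `H = Δ_ω`, the spectral measures of all vectors are singular on every Borel set which meets
`S` in a null set, and
* for almost every `E` and all finitely supported `u` the limit of `Im ⟨u, (H - E - iη)⁻¹ u⟩`
  exists; it is zero if and only if `E ∉ S` or `u ∈ (H - E)(finitely supported vectors)`;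
* for all nonzero finitely supported `u` the spectral measure of `u` is not singular on any Borel
  set which meets `S` in positive measure;
* for all finite subsets `F` of two adjacent hyperplanes `{j_i = m}`, `{j_i = m + 1}` the spectral
  measures of the vectors supported in `F` are bounded below by `‖φ‖² c(E) dE`, `c ≠ 0` almost
  everywhere on `S`. -/
theorem result (d : ℕ) (hd : 1 ≤ d) (ν : Measure ℝ) [IsProbabilityMeasure ν]
    (hb : ∃ K : ℝ, ∀ᵐ v ∂ν, |v| ≤ K) (hν : ∀ r : ℝ, ν {r} ≠ 1) :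
    ∃ S : Set ℝ, MeasurableSet S ∧ ∀ᵐ ω ∂(iid d ν),
      (∃! H : Op (L2 d), IsAnderson ω H) ∧ ∀ H : Op (L2 d), IsAnderson ω H →
        SingularOff H S ∧ LocalForm H S ∧ (∀ u : L2 d, u ≠ 0 → FinSupp u → SeesAll H S u) ∧
        ∀ (i : Fin d) (m : ℤ) (F : Finset (Fin d → ℤ)), (∀ j ∈ F, j i = m ∨ j i = m + 1) →
          Dominates H S F := by
  obtain ⟨S, hS, hmain⟩ := TH980.IM.final3 (d := d) hd ν hb hν
  refine ⟨S, hS, ?_⟩
  filter_upwards [hmain] with ω ⟨H0, h1, h2, h3, h4, h5, h6, h7⟩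
  refine ⟨⟨H0, fun u => funext fun j => h1 u j, fun H hH => h2 H fun u j => congrFun (hH u) j⟩,
    fun H hH => ?_⟩
  have hHe : H = H0 := h2 H fun u j => congrFun (hH u) j
  subst hHe
  refine ⟨⟨fun φ => h3 φ, fun B hB hB0 φ μ hμ => h4 B hB hB0 φ μ hμ.1 hμ.2⟩, h5,
    fun u hu hfin B hB hB0 μ hμ => h6 u hu hfin B hB hB0 μ hμ.1 hμ.2, fun i m F hF => ?_⟩
  obtain ⟨c, hc1, hc2, hc3⟩ := h7 i m F hF
  exact ⟨c, hc1, hc2, fun φ hφ μ hμ B hB => hc3 φ hφ μ hμ.1 hμ.2 B hB⟩

end Pool.Agent.Results.MP_d0f69c_mp.FiniteSupport
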