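import Pool.Agent.TH980.IM.Fin

/-!
# The absolutely continuous spectrum of the Anderson model never has finite multiplicity

`Δ_ω = -Δ + ω` on `ℓ²(ℤ^d)`, `ω_j` iid with any law of bounded support which is not a point mass,
for instance `P(ω_j = ±1) = 1/2`. Almost surely, on every Borel set of energies which carries
absolutely continuous spectrum, the absolutely continuous spectrum has infinite multiplicity: for
every finite family of vectors there is a nonzero absolutely continuous state, with energies in the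
given set, which is orthogonal to the cyclic subspaces of all these vectors.
-/

set_option autoImplicit false

open MeasureTheory

namespace Pool.Agent.Results.MP_d0f69c_mp.InfiniteMultiplicity

/-- The Hilbert space `ℓ²(ℤ^d)`. -/
def L2 (d : ℕ) : Type := lp (fun _ : Fin d → ℤ => ℂ) 2

/-- The `ℓ²` norm. -/
noncomputable instance instNorm (d : ℕ) : NormedAddCommGroup (L2 d) :=
  @lp.normedAddCommGroup (Fin d → ℤ) (fun _ => ℂ) 2 _ _

/-- The `ℓ²` inner product. -/
noncomputable instance instInner (d : ℕ) : InnerProductSpace ℂ (L2 d) :=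
  @lp.instInnerProductSpace (Fin d → ℤ) ℂ _ (fun _ => ℂ) _ _

/-- The underlying function of a vector of `ℓ²(ℤ^d)`. -/
def coord {d : ℕ} (u : L2 d) : (Fin d → ℤ) → ℂ := (show lp (fun _ : Fin d → ℤ => ℂ) 2 from u)

/-- Bounded linear operators on a complex inner product space. -/
abbrev Op (E : Type) [NormedAddCommGroup E] [InnerProductSpace ℂ E] : Type := E →L[ℂ] E

/-- the operator of the problem, `(Δ_ω u)(j) = -∑_{|n|=1} (u(j+n) - u(j)) + ω_j u(j)` (the unit
vectors `n` are `± e_i`) -/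
noncomputable def act {d : ℕ} (ω : (Fin d → ℤ) → ℝ) (u : (Fin d → ℤ) → ℂ) (j : Fin d → ℤ) : ℂ :=
  -(∑ i : Fin d, ((u (j + Pi.single i 1) - u j) + (u (j - Pi.single i 1) - u j))) + (ω j : ℂ) * u j

/-- The bounded operator `H` on `ℓ²(ℤ^d)` is `Δ_ω`. -/
def IsAnderson {d : ℕ} (ω : (Fin d → ℤ) → ℝ) (H : Op (L2 d)) : Prop :=
  ∀ u : L2 d, coord (H u) = act ω (coord u)

/-- `(H - z)⁻¹` -/
noncomputable def res {E : Type} [NormedAddCommGroup E] [InnerProductSpace ℂ E] (H : Op E) (z : ℂ) :
    Op E :=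
  Ring.inverse (H - z • (1 : Op E))

/-- `μ` is the spectral measure of `ψ`: a finite measure with Borel transform
`⟨ψ, (H - z)⁻¹ ψ⟩` off the real line. -/
def IsSpectralMeasure {E : Type} [NormedAddCommGroup E] [InnerProductSpace ℂ E]
    (H : Op E) (ψ : E) (μ : Measure ℝ) : Prop :=
  IsFiniteMeasure μ ∧ ∀ z : ℂ, z.im ≠ 0 →
    ∫ x, ((x : ℂ) - z)⁻¹ ∂μ = inner ℂ ψ (res H z ψ)

/-- `χ` is orthogonal to the cyclic subspaces of `ψ_1, ..., ψ_n`: to all `H^m ψ_j`. -/
def OrthCyclic {E : Type} [NormedAddCommGroup E] [InnerProductSpace ℂ E]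
    (H : Op E) {n : ℕ} (ψ : Fin n → E) (χ : E) : Prop :=
  ∀ (m : ℕ) (j : Fin n), inner ℂ ((H ^ m) (ψ j)) χ = 0

/-- the spectral measure of `χ` is absolutely continuous and vanishes outside `B` -/
def IsACState {E : Type} [NormedAddCommGroup E] [InnerProductSpace ℂ E]
    (H : Op E) (B : Set ℝ) (χ : E) : Prop :=
  ∃ ρ : Measure ℝ, IsSpectralMeasure H χ ρ ∧ ρ ≪ volume ∧ ρ Bᶜ = 0

/-- the law of iid variables with law `ν` on `ℤ^d` -/
noncomputable def iid (d : ℕ) (ν : Measure ℝ) : Measure ((Fin d → ℤ) → ℝ) :=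
  Measure.infinitePi fun _ => ν

/-- Let `d ≥ 1` and let `ν` be a law with bounded support which is not a point mass. For almost
every iid potential `ω` with law `ν` the following holds. There is exactly one bounded operator
`H = Δ_ω` on `ℓ²(ℤ^d)`. If the spectral measure of some vector `φ` is not singular on the Borel set
`B`, then for every finite family `ψ_1, ..., ψ_n` there is a nonzero vector `χ` which is orthogonal
to `H^m ψ_j` for all `m` and `j`, and whose spectral measure is absolutely continuous and vanishes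
outside `B`. -/
theorem result (d : ℕ) (hd : 1 ≤ d) (ν : Measure ℝ) [IsProbabilityMeasure ν]
    (hb : ∃ K : ℝ, ∀ᵐ v ∂ν, |v| ≤ K) (hν : ∀ r : ℝ, ν {r} ≠ 1) :
    ∀ᵐ ω ∂(iid d ν), (∃! H : Op (L2 d), IsAnderson ω H) ∧
      ∀ H : Op (L2 d), IsAnderson ω H → ∀ (φ : L2 d) (μ : Measure ℝ), IsSpectralMeasure H φ μ →
        ∀ B : Set ℝ, MeasurableSet B → ¬ (μ.restrict B) ⟂ₘ volume →
          ∀ (n : ℕ) (ψ : Fin n → L2 d), ∃ χ : L2 d, χ ≠ 0 ∧ OrthCyclic H ψ χ ∧ IsACState H B χ := by
  filter_upwards [TH980.IM.final hd ν hb hν] with ω ⟨H0, h1, h2, h3⟩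
  refine ⟨⟨H0, fun u => funext fun j => h1 u j, fun H hH => h2 H fun u j => congrFun (hH u) j⟩,
    fun H hH φ μ hμ B hB hns n ψ => ?_⟩
  have hHe : H = H0 := h2 H fun u j => congrFun (hH u) j
  subst hHe
  exact h3 φ μ hμ.1 hμ.2 B hB hns n ψ

end Pool.Agent.Results.MP_d0f69c_mp.InfiniteMultiplicity
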