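import Pool.Agent.TH369.SJ.GS4
import Pool.Agent.TH369.AN.RES

/-!
# Bernoulli Anderson model: absolutely continuous states leave every set of volume `O(T)`

`Δ_ω = -Δ + ω` on `ℤ^d`, `d ≥ 1`, with iid `ω_j`, `P(ω_j = 1) = P(ω_j = -1) = 1/2`. For finite
sets `S_T` of at most `M T` sites, and for a state `ψ` in the absolutely continuous subspace of
`Δ_ω`, the probability to be in `S_T`, averaged over a window of times of length `T`, tends to zero as
`T → ∞`, uniformly over all the windows: in mean over `ω` for every measurable choice `ψ(ω)`, and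
almost surely for all absolutely continuous states at once along a deterministic sequence of
lengths. The moments of order `p` of the position, averaged over a window of length `T`, grow
strictly faster than `T^{p/d}`. So an absolutely continuous component would be strictly
superdiffusive in `d = 2` (and in `d = 1` there is none).
-/

set_option autoImplicit false

open MeasureTheory Filter Topology
open scoped BigOperators ENNReal

namespace Pool.Agent.Results.MP_d0f69c_mp.SuperdiffusiveACStates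

/-- The Hilbert space `ℓ²(ℤ^d)`. -/
def L2 (d : ℕ) : Type := lp (fun _ : Fin d → ℤ => ℂ) 2

/-- The `ℓ²` norm. -/
noncomputable instance instNorm (d : ℕ) : NormedAddCommGroup (L2 d) :=
  @lp.normedAddCommGroup (Fin d → ℤ) (fun _ => ℂ) 2 _ _

/-- The `ℓ²` inner product. -/
noncomputable instance instInner (d : ℕ) : InnerProductSpace ℂ (L2 d) :=
  @lp.instInnerProductSpace (Fin d → ℤ) ℂ _ (fun _ => ℂ) _ _

/-- The underlying function of a vector of `ℓ²(ℤ^d)`. -/
def coord {d : ℕ} (u : L2 d) : (Fin d → ℤ) → ℂ := (show lp (fun _ : Fin d → ℤ => ℂ) 2 from u)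

/-- Bounded linear operators on a complex inner product space. -/
abbrev Op (X : Type) [NormedAddCommGroup X] [InnerProductSpace ℂ X] : Type := X →L[ℂ] X

/-- the law of a fair sign, `P(ω_j = 1) = P(ω_j = -1) = 1/2` -/
noncomputable def bern : Measure ℝ :=
  ENNReal.ofReal (1 / 2) • Measure.dirac 1 + ENNReal.ofReal (1 / 2) • Measure.dirac (-1)

/-- the law of the potential: iid fair signs -/
noncomputable def law (d : ℕ) : Measure ((Fin d → ℤ) → ℝ) := Measure.infinitePi fun _ => bern

/-- the operator of the problem, `(Δ_ω u)(j) = -∑_{|n|=1} (u(j+n) - u(j)) + ω_j u(j)` (the unit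
vectors `n` are `± e_i`) -/
noncomputable def act {d : ℕ} (ω : (Fin d → ℤ) → ℝ) (u : (Fin d → ℤ) → ℂ) (j : Fin d → ℤ) : ℂ :=
  -(∑ i : Fin d, ((u (j + Pi.single i 1) - u j) + (u (j - Pi.single i 1) - u j))) + (ω j : ℂ) * u j

/-- the bounded operator `H` on `ℓ²(ℤ^d)` is `Δ_ω` -/
def IsDelta {d : ℕ} (ω : (Fin d → ℤ) → ℝ) (H : Op (L2 d)) : Prop :=
  ∀ u : L2 d, coord (H u) = act ω (coord u)

/-- `u` is in the absolutely continuous subspace of `H`: its spectral measure, the finite measure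
`m` with Borel transform `∫ (E - z)⁻¹ dm(E) = ⟨u, (H - z)⁻¹ u⟩`, is absolutely continuous -/
def IsAC {X : Type} [NormedAddCommGroup X] [InnerProductSpace ℂ X] (H : Op X) (u : X) : Prop :=
  ∃ m : Measure ℝ, IsFiniteMeasure m ∧ m ≪ volume ∧ ∀ z : ℂ, z.im ≠ 0 →
    ∃ v : X, H v - z • v = u ∧ inner ℂ u v = ∫ x : ℝ, ((x : ℂ) - z)⁻¹ ∂m

/-- the time evolution `e^{-itH}` -/
noncomputable def evo {X : Type} [NormedAddCommGroup X] [InnerProductSpace ℂ X] (H : Op X)
    (t : ℝ) : Op X := NormedSpace.exp ((-(Complex.I * (t : ℂ))) • H)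

/-- the mean of `f` over the times `a < t < a + T` -/
noncomputable def timeMean (f : ℝ → ℝ≥0∞) (a T : ℝ) : ℝ≥0∞ :=
  ENNReal.ofReal (1 / T) * ∫⁻ t in Set.Ioo a (a + T), f t

/-- the probability `∑_{y ∈ S} |u(y)|²` to be in the finite set `S` in the state `u` -/
noncomputable def prob {d : ℕ} (S : Finset (Fin d → ℤ)) (u : L2 d) : ℝ≥0∞ :=
  ∑ y ∈ S, ‖coord u y‖ₑ ^ 2

/-- the moment `∑_y |y|^p |u(y)|²` of order `p` of the position (with `|y| = max_i |y_i|`) -/
noncomputable def mom {d : ℕ} (p : ℝ) (u : L2 d) : ℝ≥0∞ :=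
  ∑' y : Fin d → ℤ, ENNReal.ofReal (‖y‖ ^ p) * ‖coord u y‖ₑ ^ 2

/-- the supremum over the time windows `(a, a + T)` of the time averaged probability to be in `S`
in the state `e^{-itH} u` -/
noncomputable def supProb {d : ℕ} (H : Op (L2 d)) (S : Finset (Fin d → ℤ)) (T : ℝ) (u : L2 d) :
    ℝ≥0∞ := ⨆ a : ℝ, timeMean (fun t => prob S (evo H t u)) a T

/-- the infimum over the time windows `(a, a + T)` of the time averaged moment of order `p` of the
position in the state `e^{-itH} u` -/
noncomputable def infMom {d : ℕ} (H : Op (L2 d)) (p T : ℝ) (u : L2 d) : ℝ≥0∞ :=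
  ⨅ a : ℝ, timeMean (fun t => mom p (evo H t u)) a T

/-- the sets `S T` have at most `M T` sites, for large `T` -/
def VolumeLinear {d : ℕ} (S : ℝ → Finset (Fin d → ℤ)) (M : ℝ) : Prop :=
  ∀ᶠ T in atTop, ((S T).card : ℝ) ≤ M * T

open Pool.Agent.TH369.AN in
theorem isDelta_TT {d : ℕ} (c : ℝ) (ω : (Fin d → ℤ) → ℝ) (h : ∀ x, |ω x| ≤ c) :
    IsDelta ω (TT ∅ c ω) := by
  intro u
  funext j
  refine (TT_apply ∅ c ω u j).trans ?_
  have hcl : cl c (ω j) = ω j := by
    obtain ⟨h1, h2⟩ := abs_le.1 (h j)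
    unfold cl
    rw [min_eq_right h2, max_eq_right h1]
  unfold Pool.Agent.TH369.AN.act act
  rw [if_neg (Finset.notMem_empty _), hcl]
  simp only [Finset.notMem_empty, if_false]
  have h1 : ∑ i : Fin d, ((coord u (j + Pi.single i 1) - coord u j) +
      (coord u (j - Pi.single i 1) - coord u j)) =
      ∑ i : Fin d, (coord u (j + Pi.single i 1) + coord u (j - Pi.single i 1)) -
        2 * (d : ℂ) * coord u j := by
    rw [Finset.sum_add_distrib, Finset.sum_sub_distrib, Finset.sum_sub_distrib,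
      Finset.sum_add_distrib]
    simp
    ring
  rw [h1]
  unfold ee coord
  ring

theorem coord_inj {d : ℕ} (u v : L2 d) (h : coord u = coord v) : u = v :=
  lp.ext (E := fun _ : Fin d → ℤ => ℂ) (p := 2) h

theorem isDelta_unique {d : ℕ} (ω : (Fin d → ℤ) → ℝ) (L L' : Op (L2 d))
    (h : IsDelta ω L) (h' : IsDelta ω L') : L = L' := by
  refine ContinuousLinearMap.ext fun u => coord_inj _ _ ?_
  rw [h u, h' u]

theorem isAC_TT {d : ℕ} (c : ℝ) (ω : (Fin d → ℤ) → ℝ) (ψ : L2 d)
    (h : IsAC (X := L2 d) (Pool.Agent.TH369.AN.TT ∅ c ω) ψ) :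
    Pool.Agent.TH369.SJ.ACv (Pool.Agent.TH369.AN.TT ∅ c ω) ψ := by
  obtain ⟨m, h3, h4, h5⟩ := h
  refine ⟨m, ⟨h3, fun z hz => ?_⟩, h4⟩
  obtain ⟨v, hv, hv2⟩ := h5 z hz
  rw [← Pool.Agent.TH369.AN.rz_uniq _ (Pool.Agent.TH369.AN.TT_sa ∅ c ω) z hz v ψ hv]
  exact hv2

theorem bern_prob : IsProbabilityMeasure bern := by
  constructor
  unfold bern
  simp only [Measure.coe_add, Measure.coe_smul, Pi.add_apply, Pi.smul_apply, smul_eq_mul,
    measure_univ, mul_one]
  rw [← ENNReal.ofReal_add (by norm_num) (by norm_num)]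
  norm_num

theorem bern_supp : bern (Set.Icc (-(1 : ℝ)) 1)ᶜ = 0 := by
  unfold bern
  simp only [Measure.coe_add, Measure.coe_smul, Pi.add_apply, Pi.smul_apply, smul_eq_mul]
  rw [Measure.dirac_apply' _ measurableSet_Icc.compl, Measure.dirac_apply' _ measurableSet_Icc.compl]
  simp

theorem bern_atom (x : ℝ) : bern {x} ≠ 1 := by
  unfold bern
  simp only [Measure.coe_add, Measure.coe_smul, Pi.add_apply, Pi.smul_apply, smul_eq_mul]
  rw [Measure.dirac_apply' _ (measurableSet_singleton x),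
    Measure.dirac_apply' _ (measurableSet_singleton x)]
  by_cases h1 : (1 : ℝ) = x
  · subst h1
    have h3 : (-1 : ℝ) ∉ ({1} : Set ℝ) := by
      rw [Set.mem_singleton_iff]
      norm_num
    rw [Set.indicator_of_mem (Set.mem_singleton (1 : ℝ)), Set.indicator_of_notMem h3]
    simp
  · have h3 : (1 : ℝ) ∉ ({x} : Set ℝ) := h1
    rw [Set.indicator_of_notMem h3, mul_zero, zero_add]
    by_cases h4 : (-1 : ℝ) = x
    · subst h4
      rw [Set.indicator_of_mem (Set.mem_singleton (-1 : ℝ))]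
      simp
    · have h5 : (-1 : ℝ) ∉ ({x} : Set ℝ) := h4
      rw [Set.indicator_of_notMem h5]
      simp

/-- **Theorem.** Let `d ≥ 1`, `ω_j` iid with `P(ω_j = ±1) = 1/2`. Almost surely the bounded
operator `Δ_ω` exists and is unique. Let `S_T` be finite sets of at most `M T` sites. (1) Let `ψ(ω)`
be a measurable choice of a vector of norm at most one in the absolutely continuous subspace of
`Δ_ω`. Then the mean over `ω` of the supremum over the windows `(a, a + T)` of the time averaged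
probability to be in `S_T` tends to zero as `T → ∞`; and if `ψ` is not almost surely zero then, for
every `p > 0`, the mean over `ω` of the infimum over the windows of the time averaged moment of
order `p`, divided by `T^{p/d}`, tends to infinity. (2) Every sequence `τ_i → ∞` of lengths has a
subsequence along which, almost surely and for all the vectors `ψ` of the absolutely continuous
subspace at once, the supremum over the windows tends to zero and, for `ψ ≠ 0` and every `p > 0`,
the infimum over the windows of the moment divided by `T^{p/d}` tends to infinity. -/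
theorem result (d : ℕ) (hd : 1 ≤ d) :
    (∀ᵐ ω ∂(law d), ∃! H : Op (L2 d), IsDelta ω H) ∧
    ∀ H : ((Fin d → ℤ) → ℝ) → Op (L2 d), (∀ᵐ ω ∂(law d), IsDelta ω (H ω)) →
      ∀ (S : ℝ → Finset (Fin d → ℤ)) (M : ℝ), VolumeLinear S M →
        (∀ ψ : ((Fin d → ℤ) → ℝ) → L2 d, AEStronglyMeasurable ψ (law d) →
          (∀ ω, ‖ψ ω‖ ≤ 1) → (∀ᵐ ω ∂(law d), IsAC (H ω) (ψ ω)) →
          Tendsto (fun T : ℝ => ∫⁻ ω, supProb (H ω) (S T) T (ψ ω) ∂(law d)) atTop (𝓝 0) ∧
          ((¬ ∀ᵐ ω ∂(law d), ψ ω = 0) → ∀ p : ℝ, 0 < p →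
            Tendsto (fun T : ℝ => (∫⁻ ω, infMom (H ω) p T (ψ ω) ∂(law d)) /
              ENNReal.ofReal (T ^ (p / d))) atTop (𝓝 ⊤))) ∧
        ∀ τ : ℕ → ℝ, Tendsto τ atTop atTop → ∃ s : ℕ → ℕ, StrictMono s ∧
          ∀ᵐ ω ∂(law d), ∀ ψ : L2 d, IsAC (H ω) ψ →
            Tendsto (fun i => supProb (H ω) (S (τ (s i))) (τ (s i)) ψ) atTop (𝓝 0) ∧
            (ψ ≠ 0 → ∀ p : ℝ, 0 < p →
              Tendsto (fun i => infMom (H ω) p (τ (s i)) ψ / ENNReal.ofReal (τ (s i) ^ (p / d)))
                atTop (𝓝 ⊤)) := by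
  have hP : IsProbabilityMeasure bern := bern_prob
  have hsupp : bern (Set.Icc (-(1 : ℝ)) 1)ᶜ = 0 := bern_supp
  have hnd : ∀ x : ℝ, bern {x} ≠ 1 := bern_atom
  have hb : ∀ᵐ ω ∂(law d), ∀ x, |ω x| ≤ 1 := by
    rw [ae_all_iff]
    intro x
    have h1 : ∀ᵐ t ∂bern, |t| ≤ 1 := by
      rw [ae_iff]
      refine measure_mono_null (fun t ht => ?_) hsupp
      intro hcon
      exact ht (abs_le.2 hcon)
    exact (measurePreserving_eval_infinitePi (fun _ : Fin d → ℤ => bern)
      x).quasiMeasurePreserving.ae h1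
  refine ⟨?_, ?_⟩
  · filter_upwards [hb] with ω hω
    exact ⟨_, isDelta_TT 1 ω hω, fun L' h' => isDelta_unique ω _ _ h' (isDelta_TT 1 ω hω)⟩
  · intro L hL S M hS
    have hLT : ∀ᵐ ω ∂(law d), L ω = Pool.Agent.TH369.AN.TT ∅ 1 ω := by
      filter_upwards [hb, hL] with ω h1 h2
      exact isDelta_unique ω _ _ h2 (isDelta_TT 1 ω h1)
    refine ⟨fun ψ hψm hψ hac => ?_, fun τ hτ => ?_⟩
    · have hac' : ∀ᵐ ω ∂(law d),
          Pool.Agent.TH369.SJ.ACv (Pool.Agent.TH369.AN.TT ∅ 1 ω) (ψ ω) := by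
        filter_upwards [hLT, hac] with ω h1 h2
        rw [h1] at h2
        exact isAC_TT 1 ω (ψ ω) h2
      refine ⟨?_, fun h0 p hp => ?_⟩
      · have h := Pool.Agent.TH369.SJ.leave_sup (d := d) 1 zero_le_one bern hsupp hnd M S hS ψ hψ
          hac'
        refine h.congr fun T => ?_
        refine lintegral_congr_ae ?_
        filter_upwards [hLT] with ω h1
        rw [h1]
        rfl
      · have h := Pool.Agent.TH369.SJ.moments (d := d) (by omega) 1 zero_le_one bern hsupp hnd p hp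
          ψ hψm hψ hac' h0
        refine h.congr fun T => ?_
        congr 1
        refine lintegral_congr_ae ?_
        filter_upwards [hLT] with ω h1
        rw [h1]
        rfl
    · obtain ⟨s, hs, hs2⟩ := Pool.Agent.TH369.SJ.quenched (d := d) (by omega) 1 zero_le_one bern
        hsupp hnd M S hS τ hτ
      refine ⟨s, hs, ?_⟩
      filter_upwards [hLT, hs2] with ω h1 h2 ψ hψ
      rw [h1] at hψ ⊢
      exact h2 ψ (isAC_TT 1 ω ψ hψ)

end Pool.Agent.Results.MP_d0f69c_mp.SuperdiffusiveACStates
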